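import Pool.Agent.Helper33.ZC.Fin
import Pool.Agent.Helper61.PC.Lat
import Pool.Agent.Helper25.PC.Product

/-! Row MAIN of PIC: a function with a given divisor supported at two places. -/

set_option autoImplicit false

namespace PCl

open Polynomial

variable {F k : Type*} [Field F] [Finite F] [Field k] [Algebra F k]

omit [Finite F] in
theorem Ind.of_inv {t : k} (ht : t ≠ 0) {n : ℕ} (h : Ind F t⁻¹ n) : Ind F t n := by
  classical
  obtain ⟨u, hu⟩ := h
  refine ⟨u, fun c hc => ?_⟩
  set D : ℕ := Finset.univ.sup fun i => (c i).natDegree with hD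
  have := invertibleOfNonzero ht
  have h1 : ∀ i, aeval t⁻¹ (reflect D (c i)) * t ^ D = aeval t (c i) := by
    intro i
    have := eval₂_reflect_mul_pow (algebraMap F k) t D (c i)
      (Finset.le_sup (f := fun i => (c i).natDegree) (Finset.mem_univ i))
    rw [invOf_eq_inv] at this
    simpa [aeval_def] using this
  have h2 : (∑ i, aeval t⁻¹ (reflect D (c i)) * u i) * t ^ D = 0 := by
    rw [← hc, Finset.sum_mul]
    refine Finset.sum_congr rfl fun i _ => ?_
    rw [← h1 i]
    ring
  have h3 := hu (fun i => reflect D (c i)) ((mul_eq_zero.1 h2).resolve_right (pow_ne_zero _ ht))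
  funext i
  have h4 := congrFun h3 i
  simpa using h4

/-- Row MAIN (helper33): two places; the product formula is a hypothesis here. -/
theorem two_places' (hfin' : ∀ x : k, Transcendental F x → ∃ n, Rel F x n ∧ Ind F x n)
    (o : ValuationSubring k → k → ℤ) (ho : ∀ A, A ≠ ⊤ → IsOrd A (o A))
    (product : ∀ z : k, z ≠ 0 → ∀ T : Finset (ValuationSubring k), (∀ A ∈ T, A ≠ ⊤) →
      (∀ A, A ≠ ⊤ → o A z ≠ 0 → A ∈ T) → ∏ A ∈ T, (N A : ℚ) ^ (o A z) = 1)
    (v w : ValuationSubring k) (hv : v ≠ ⊤) (hw : w ≠ ⊤) (hvw : v ≠ w) (dv dw : ℕ)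
    (hdv : N v = Nat.card F ^ dv) (hdw : N w = Nat.card F ^ dw) :
    ∃ (f : k) (m : ℕ), f ≠ 0 ∧ 0 < m ∧ o v f = m * dw ∧ o w f = -(m * dv : ℤ) ∧
      ∀ A, A ≠ ⊤ → A ≠ v → A ≠ w → o A f = 0 := by
  classical
  have hfin : ∀ x : k, Transcendental F x → ∃ n, Rel F x n :=
    fun x hx => (hfin' x hx).imp fun n h => h.1
  -- the function `t` with a simple pole at `w`
  obtain ⟨s, hs0, hs1⟩ := (ho w hw).surj
  have hsn : s ∈ w.nonunits := ((ho w hw).pos_iff hs0).1 (by omega)
  have hstr : Transcendental F s := transc w hsn hs0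
  set t : k := s⁻¹ with ht
  have ht0 : t ≠ 0 := inv_ne_zero hs0
  have hti : t⁻¹ = s := by rw [ht, inv_inv]
  have httr : Transcendental F t := fun h => hstr (by rw [← hti]; exact h.inv)
  obtain ⟨n, hR, hI⟩ := hfin' s hstr
  have hIt : Ind F t n := Ind.of_inv ht0 (by rw [hti]; exact hI)
  have hn : 0 < n := by
    rcases Nat.eq_zero_or_pos n with rfl | h
    · obtain ⟨c, hc0, hc⟩ := hR fun _ => 1
      exfalso
      rw [Fin.sum_univ_one, mul_one] at hc
      refine aeval_ne hstr (p := c 0) ?_ hc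
      intro h
      apply hc0
      funext i
      rw [Fin.fin_one_eq_zero i, h]
      rfl
    · exact h
  have htw : o w t = -1 := by rw [ht, (ho w hw).inv hs0, hs1]
  have hq : 2 ≤ Nat.card F := Nat.succ_le_of_lt Finite.one_lt_card
  -- the lattices
  obtain ⟨S, C, hS, hC, hlat⟩ := lattice' (finite_above (F := F) hfin) o ho httr hIt
  -- the poles of `t`
  have hpole : {A : ValuationSubring k | s ∈ A.nonunits}.Finite := finite_above (F := F) hfin s hs0
  set T : Finset (ValuationSubring k) :=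
    (S ∪ hpole.toFinset ∪ {v, w}).filter fun A => A ≠ ⊤ with hT
  have hTtop : ∀ A ∈ T, A ≠ ⊤ := fun A hA => (Finset.mem_filter.1 hA).2
  have hvT : v ∈ T := by rw [hT, Finset.mem_filter]; exact ⟨by simp, hv⟩
  have hwT : w ∈ T := by rw [hT, Finset.mem_filter]; exact ⟨by simp, hw⟩
  have hST : ∀ A ∉ T, A ≠ ⊤ → C A = 0 ∧ max (-(o A t)) 0 = 0 := by
    intro A hA hAt
    rw [hT, Finset.mem_filter] at hA
    push Not at hA
    have h1 : A ∉ S ∪ hpole.toFinset ∪ {v, w} := fun h => hAt (hA h)
    simp only [Finset.mem_union, not_or, Set.Finite.mem_toFinset, Set.mem_ofPred_eq] at h1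
    refine ⟨hC A h1.1.1, ?_⟩
    rw [← (ho A hAt).pos_iff hs0] at h1
    have h2 : o A t = -o A s := by rw [ht, (ho A hAt).inv hs0]
    rw [h2]
    have := h1.1.2
    omega
  -- the norm of the poles of `t`
  set p : ValuationSubring k → ℕ := fun A => (max (-(o A t)) 0).toNat with hp
  have hpz : ∀ A, ((p A : ℕ) : ℤ) = max (-(o A t)) 0 := fun A => Int.toNat_of_nonneg (le_max_right _ _)
  have hpoleN : ∏ A ∈ T, N A ^ p A ≤ Nat.card F ^ n := by
    set T' := T.filter fun A => s ∈ A with hT'
    have h1 := zeros_le hfin o ho T' (fun A hA => hTtop A (Finset.mem_of_mem_filter A hA)) hs0 hstr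
      (fun A hA => (Finset.mem_filter.1 hA).2) hR
    refine le_trans (le_of_eq ?_) h1
    symm
    rw [hT', Finset.prod_filter]
    refine Finset.prod_congr rfl fun A hA => ?_
    have h2 : o A t = -o A s := by rw [ht, (ho A (hTtop A hA)).inv hs0]
    split_ifs with h
    · have h3 := ((ho A (hTtop A hA)).nonneg s hs0).2 h
      congr 1
      rw [hp]
      simp only
      rw [h2]
      omega
    · have h3 : ¬ 0 ≤ o A s := fun h' => h (((ho A (hTtop A hA)).nonneg s hs0).1 h')
      have h4 : p A = 0 := by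
        rw [hp]
        simp only
        rw [h2]
        omega
      rw [h4, pow_zero]
  have hNpos : ∀ A, A ≠ ⊤ → 0 < N A := fun A hA => by
    have := two_le_N (F := F) hfin A hA
    omega
  have hprod1 : ∀ (U : Finset (ValuationSubring k)) (u : ValuationSubring k) (e : ℕ), u ∈ U →
      ∏ A ∈ U, N A ^ (if A = u then e else 0) = N u ^ e := by
    intro U u e hu
    rw [Finset.prod_eq_single u]
    · rw [if_pos rfl]
    · intro A _ hA
      rw [if_neg hA, pow_zero]
    · exact fun h => absurd hu h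
  -- the functions `y M`
  have hY : ∀ M : ℕ, ∃ y : k, y ≠ 0 ∧ ∀ A, A ≠ ⊤ →
      -(C A : ℤ) + (if A = v then M * dw else 0 : ℕ) - (if A = w then M * dv else 0 : ℕ) ≤
        o A y := by
    intro M
    obtain ⟨W, hWf, hWc, hW⟩ := hlat (M * dv)
    obtain ⟨y, hyW, hy0, hy⟩ := count hfin o ho T hTtop W
      (fun A => C A + (M * dv : ℕ) * max (-(o A t)) 0)
      (fun A => -(C A : ℤ) + (if A = v then M * dw else 0 : ℕ) - (if A = w then M * dv else 0 : ℕ))
      (by
        intro A hA
        rw [← hpz A]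
        by_cases hAw : A = w
        · subst hAw
          have : p A = 1 := by rw [hp]; simp only; rw [htw]; rfl
          rw [if_neg (Ne.symm hvw), if_pos rfl, this]
          push_cast
          linarith
        · rw [if_neg hAw]
          push_cast
          have h1 : (0:ℤ) ≤ (M * dv : ℕ) * (p A : ℤ) := by positivity
          have h2 : (0:ℤ) ≤ ((if A = v then M * dw else 0 : ℕ) : ℤ) := by positivity
          push_cast at h1 h2 ⊢
          linarith)
      (by
        intro y hy hy0 A hA
        have := hW y hy hy0 A (hTtop A hA)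
        linarith)
      (by
        rw [hWc]
        have e1 : ∀ A ∈ T, (((C A : ℤ) + (M * dv : ℕ) * max (-(o A t)) 0) +
            (-(C A : ℤ) + (if A = v then M * dw else 0 : ℕ) -
              (if A = w then M * dv else 0 : ℕ))).toNat + (if A = w then M * dv else 0) =
            M * dv * p A + (if A = v then M * dw else 0) := by
          intro A hA
          rw [← hpz A]
          by_cases hAw : A = w
          · subst hAw
            have : p A = 1 := by rw [hp]; simp only; rw [htw]; rfl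
            rw [if_neg (Ne.symm hvw), if_pos rfl, this]
            push_cast
            have : ((C A : ℤ) + M * dv * 1 + (-(C A : ℤ) + 0 - M * dv)) = 0 := by ring
            rw [this]
            simp
          · rw [if_neg hAw]
            have : ((C A : ℤ) + (M * dv : ℕ) * (p A : ℤ) +
                (-(C A : ℤ) + (if A = v then M * dw else 0 : ℕ) - (0 : ℕ))) =
                ((M * dv * p A + (if A = v then M * dw else 0) : ℕ) : ℤ) := by
              push_cast
              ring
            rw [this, Int.toNat_natCast]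
            rfl
        have e2 : (∏ A ∈ T, N A ^ (((C A : ℤ) + (M * dv : ℕ) * max (-(o A t)) 0) +
            (-(C A : ℤ) + (if A = v then M * dw else 0 : ℕ) -
              (if A = w then M * dv else 0 : ℕ))).toNat) * N w ^ (M * dv) =
            (∏ A ∈ T, N A ^ p A) ^ (M * dv) * N v ^ (M * dw) := by
          rw [← hprod1 T w (M * dv) hwT, ← hprod1 T v (M * dw) hvT, ← Finset.prod_mul_distrib,
            ← Finset.prod_pow, ← Finset.prod_mul_distrib]
          refine Finset.prod_congr rfl fun A hA => ?_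
          rw [← pow_add, e1 A hA, pow_add, ← pow_mul, mul_comm (p A)]
        have e3 : N w ^ (M * dv) = N v ^ (M * dw) := by
          rw [hdv, hdw, ← pow_mul, ← pow_mul]
          congr 1
          ring
        rw [e3] at e2
        have e4 := Nat.eq_of_mul_eq_mul_right (pow_pos (hNpos v hv) _) e2
        rw [e4]
        calc (∏ A ∈ T, N A ^ p A) ^ (M * dv) ≤ (Nat.card F ^ n) ^ (M * dv) :=
              Nat.pow_le_pow_left hpoleN _
          _ = Nat.card F ^ (n * (M * dv)) := by rw [← pow_mul]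
          _ < Nat.card F ^ (n * (M * dv + 1)) := by
              apply Nat.pow_lt_pow_right (by omega)
              nlinarith)
    refine ⟨y, hy0, fun A hA => ?_⟩
    by_cases hAT : A ∈ T
    · exact hy A hAT
    · have h1 := hW y hyW hy0 A hA
      obtain ⟨h2, h3⟩ := hST A hAT hA
      have hAv : A ≠ v := fun h => hAT (h ▸ hvT)
      have hAw : A ≠ w := fun h => hAT (h ▸ hwT)
      rw [h2, h3] at h1
      rw [h2, if_neg hAv, if_neg hAw]
      simpa using h1
  choose y hy0 hy using hY
  -- the finite sets which carry the divisors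
  have hsupp : ∀ z : k, z ≠ 0 → {A : ValuationSubring k | A ≠ ⊤ ∧ o A z ≠ 0}.Finite := by
    intro z hz
    refine ((finite_above (F := F) hfin z hz).union
      (finite_above (F := F) hfin z⁻¹ (inv_ne_zero hz))).subset ?_
    rintro A ⟨hA, hAz⟩
    rcases lt_or_gt_of_ne hAz with h | h
    · right
      rw [Set.mem_ofPred_eq, ← (ho A hA).pos_iff (inv_ne_zero hz), (ho A hA).inv hz]
      omega
    · left
      rw [Set.mem_ofPred_eq, ← (ho A hA).pos_iff hz]
      exact h
  set U : ℕ → Finset (ValuationSubring k) := fun M => T ∪ (hsupp (y M) (hy0 M)).toFinset with hU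
  have hUtop : ∀ M, ∀ A ∈ U M, A ≠ ⊤ := by
    intro M A hA
    rw [hU, Finset.mem_union] at hA
    rcases hA with h | h
    · exact hTtop A h
    · exact ((Set.Finite.mem_toFinset _).1 h).1
  -- the effective divisors
  set x : ℕ → ValuationSubring k → ℕ := fun M A => if A = v then M * dw else 0 with hx
  set z : ℕ → ValuationSubring k → ℕ := fun M A => if A = w then M * dv else 0 with hz
  set g : ℕ → ValuationSubring k → ℕ := fun M A =>
    (o A (y M) + C A - x M A + z M A).toNat with hg
  have hgz : ∀ M A, A ≠ ⊤ → ((g M A : ℕ) : ℤ) = o A (y M) + C A - x M A + z M A := by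
    intro M A hA
    refine Int.toNat_of_nonneg ?_
    have := hy M A hA
    linarith
  have hg0 : ∀ M A, A ≠ ⊤ → A ∉ U M → g M A = 0 := by
    intro M A hA hAU
    have h1 : A ∉ T := fun h => hAU (Finset.mem_union_left _ h)
    have h2 : o A (y M) = 0 := by
      by_contra hne
      exact hAU (Finset.mem_union_right _ ((Set.Finite.mem_toFinset _).2 ⟨hA, hne⟩))
    have hAv : A ≠ v := fun h => h1 (h ▸ hvT)
    have hAw : A ≠ w := fun h => h1 (h ▸ hwT)
    have h3 := hgz M A hA
    rw [h2, (hST A h1 hA).1, hx, hz] at h3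
    simp only [if_neg hAv, if_neg hAw] at h3
    simpa using h3
  set E : ℕ → ValuationSubring k →₀ ℕ := fun M => Finsupp.indicator (U M) fun A _ => g M A with hE
  have hEval : ∀ M A, A ≠ ⊤ → E M A = g M A := by
    intro M A hA
    by_cases h : A ∈ U M
    · exact Finsupp.indicator_of_mem h _
    · rw [hg0 M A hA h]
      exact Finsupp.indicator_of_notMem h _
  have hEsupp : ∀ M, (E M).support ⊆ U M := fun M => Finsupp.support_indicator_subset _ _
  set B : ℕ := ∏ A ∈ T, N A ^ C A with hB
  have hEprod : ∀ M, ((E M).prod fun A e => N A ^ e) = B := by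
    intro M
    rw [Finsupp.prod_of_support_subset _ (hEsupp M) _ (fun A _ => pow_zero _)]
    have h0 : ∏ A ∈ U M, N A ^ (E M) A = ∏ A ∈ U M, N A ^ g M A :=
      Finset.prod_congr rfl fun A hA => by rw [hEval M A (hUtop M A hA)]
    rw [h0]
    have hNQ : ∀ A ∈ U M, ((N A : ℕ) : ℚ) ≠ 0 := fun A hA => by
      have := hNpos A (hUtop M A hA)
      positivity
    have h1 := product (y M) (hy0 M) (U M) (hUtop M) (fun A hA hne =>
      Finset.mem_union_right _ ((Set.Finite.mem_toFinset _).2 ⟨hA, hne⟩))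
    have h2 : ((∏ A ∈ U M, N A ^ g M A : ℕ) : ℚ) * ((∏ A ∈ U M, N A ^ x M A : ℕ) : ℚ) =
        (∏ A ∈ U M, (N A : ℚ) ^ (o A (y M))) * ((∏ A ∈ U M, N A ^ C A : ℕ) : ℚ) *
          ((∏ A ∈ U M, N A ^ z M A : ℕ) : ℚ) := by
      push_cast
      rw [← Finset.prod_mul_distrib, ← Finset.prod_mul_distrib, ← Finset.prod_mul_distrib]
      refine Finset.prod_congr rfl fun A hA => ?_
      have h3 := hgz M A (hUtop M A hA)
      have hN := hNQ A hA
      rw [← zpow_natCast (N A : ℚ) (g M A), ← zpow_natCast (N A : ℚ) (x M A),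
        ← zpow_natCast (N A : ℚ) (C A), ← zpow_natCast (N A : ℚ) (z M A), ← zpow_add₀ hN,
        ← zpow_add₀ hN, ← zpow_add₀ hN, h3]
      congr 1
      ring
    rw [h1, one_mul] at h2
    have hvU : v ∈ U M := Finset.mem_union_left _ hvT
    have hwU : w ∈ U M := Finset.mem_union_left _ hwT
    have h4 : ∏ A ∈ U M, N A ^ x M A = N v ^ (M * dw) := hprod1 (U M) v (M * dw) hvU
    have h5 : ∏ A ∈ U M, N A ^ z M A = N w ^ (M * dv) := hprod1 (U M) w (M * dv) hwU
    have h6 : ∏ A ∈ U M, N A ^ C A = B := by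
      rw [hB]
      symm
      refine Finset.prod_subset Finset.subset_union_left fun A hA hAT => ?_
      rw [(hST A hAT (hUtop M A hA)).1, pow_zero]
    have h7 : N w ^ (M * dv) = N v ^ (M * dw) := by
      rw [hdv, hdw, ← pow_mul, ← pow_mul]
      congr 1
      ring
    rw [h4, h5, h6, h7] at h2
    have h8 : (∏ A ∈ U M, N A ^ g M A) * N v ^ (M * dw) = B * N v ^ (M * dw) := by exact_mod_cast h2
    exact Nat.eq_of_mul_eq_mul_right (pow_pos (hNpos v hv) _) h8
  -- two of them are equal
  have hfinE := finite_eff hfin httr B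
  have hmem : ∀ M, E M ∈ {E : ValuationSubring k →₀ ℕ | (∀ A ∈ E.support, A ≠ ⊤) ∧
      (E.prod fun A e => N A ^ e) ≤ B} := fun M =>
    ⟨fun A hA => hUtop M A (hEsupp M hA), (hEprod M).le⟩
  have := hfinE.to_subtype
  obtain ⟨M₁, M₂, hne, heq⟩ := Finite.exists_ne_map_eq_of_infinite
    (fun M : ℕ => (⟨E M, hmem M⟩ : {E : ValuationSubring k →₀ ℕ | (∀ A ∈ E.support, A ≠ ⊤) ∧
      (E.prod fun A e => N A ^ e) ≤ B}))
  have heq' : E M₁ = E M₂ := congrArg Subtype.val heq
  wlog hlt : M₁ < M₂ generalizing M₁ M₂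
  · exact this M₂ M₁ hne.symm heq.symm heq'.symm (by omega)
  have hdiv : ∀ A, A ≠ ⊤ → o A (y M₂ / y M₁) =
      ((x M₂ A : ℤ) - x M₁ A) - ((z M₂ A : ℤ) - z M₁ A) := by
    intro A hA
    rw [(ho A hA).div (hy0 _) (hy0 _)]
    have h1 := hgz M₁ A hA
    have h2 := hgz M₂ A hA
    rw [← hEval M₁ A hA, heq', hEval M₂ A hA] at h1
    linarith
  refine ⟨y M₂ / y M₁, M₂ - M₁, div_ne_zero (hy0 _) (hy0 _), by omega, ?_, ?_, ?_⟩
  · rw [hdiv v hv, hx, hz]
    simp only [if_pos, if_neg hvw]
    push_cast [Nat.cast_sub hlt.le]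
    ring
  · rw [hdiv w hw, hx, hz]
    simp only [if_pos, if_neg (Ne.symm hvw)]
    push_cast [Nat.cast_sub hlt.le]
    ring
  · intro A hA hAv hAw
    rw [hdiv A hA, hx, hz]
    simp only [if_neg hAv, if_neg hAw]
    simp

/-- Row MAIN (helper33): two places. -/
theorem two_places (hfin : ∀ x : k, Transcendental F x → ∃ n, Rel F x n ∧ Ind F x n)
    (o : ValuationSubring k → k → ℤ) (ho : ∀ A, A ≠ ⊤ → IsOrd A (o A))
    (v w : ValuationSubring k) (hv : v ≠ ⊤) (hw : w ≠ ⊤) (hvw : v ≠ w) (dv dw : ℕ)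
    (hdv : N v = Nat.card F ^ dv) (hdw : N w = Nat.card F ^ dw) :
    ∃ (f : k) (m : ℕ), f ≠ 0 ∧ 0 < m ∧ o v f = m * dw ∧ o w f = -(m * dv : ℤ) ∧
      ∀ A, A ≠ ⊤ → A ≠ v → A ≠ w → o A f = 0 :=
  two_places' hfin o ho (fun _ hz T hT hsup => product hfin o ho hz T hT hsup) v w hv hw hvw dv dw
    hdv hdw

end PCl
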