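import Pool.Agent.Helper33.ZC.Deg
import Pool.Agent.Helper91.ZC.Places

/-!
The degree of the divisor of a function on a curve over any field is zero.
-/

set_option autoImplicit false

namespace ZC

universe u

/-- **The degree of the divisor of a function is zero** (any base field). -/
theorem sum_ord_deg {K E : Type u} [Field K] [Field E] [Algebra K E] (hE : IsCurveField K E)
    (g : E) (hg : g ≠ 0) : {w : Place K E | w.ord g ≠ 0}.Finite ∧
      ∑ᶠ w : Place K E, w.ord g * (w.deg : ℤ) = 0 :=
  ⟨Place.finite_ord hE.hRel g, finsum_ord_deg_of hE (Place.dvr hE) (Place.finite_residue hE)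
    (fun z _ => Place.finite_ord hE.hRel z) hg⟩

end ZC
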