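import Pool.Agent.Helper91.ZC.Lines

/-!
# Osculating lines of a hypersurface of low degree

Row P2 of MP_bd895b_L (Helper33).
-/

set_option autoImplicit false

open MvPolynomial

namespace ZC

universe u

open Pool.Agent.Helper91.ZC

section binary

variable {L : Type*} [Field L] {n d : ℕ} {g : MvPolynomial (Fin n) L}

theorem aeval_onLine (x z : Fin n → L) (g : MvPolynomial (Fin n) L) {R : Type*} [CommRing R]
    [Algebra L R] (u : R) :
    aeval (fun i => algebraMap L R (x i) + u * algebraMap L R (z i)) g =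
      Polynomial.aeval u (onLine x z g) := by
  unfold onLine
  have h0 := hom_eval₂ g Polynomial.C (Polynomial.aeval u : Polynomial L →ₐ[L] R).toRingHom
    (fun k => Polynomial.C (x k) + Polynomial.X * Polynomial.C (z k))
  change _ = (Polynomial.aeval u : Polynomial L →ₐ[L] R).toRingHom _
  rw [h0, aeval_def]
  have h1 : (Polynomial.aeval u : Polynomial L →ₐ[L] R).toRingHom.comp
      Polynomial.C = algebraMap L R := by
    ext a
    simp
  rw [h1]
  congr 1
  funext i
  simp [mul_comm u]

theorem aeval_binary_field (hg : g.IsHomogeneous d) (x z : Fin n → L) {R : Type*} [Field R]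
    [Algebra L R] (a b : R) (ha : a ≠ 0) :
    aeval (fun i => a * algebraMap L R (x i) + b * algebraMap L R (z i)) g =
      ∑ j ∈ Finset.range (d + 1), algebraMap L R ((onLine x z g).coeff j) * a ^ (d - j) * b ^ j := by
  have h1 : (fun i => a * algebraMap L R (x i) + b * algebraMap L R (z i)) =
      fun i => a * (algebraMap L R (x i) + (b / a) * algebraMap L R (z i)) := by
    funext i
    field_simp
  rw [h1, aeval_scale hg, aeval_onLine,
    Polynomial.aeval_eq_sum_range' (Nat.lt_succ_of_le (onLine_facts hg x z).1), Finset.mul_sum]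
  refine Finset.sum_congr rfl fun j hj => ?_
  have hj' : j ≤ d := Nat.lt_succ_iff.1 (Finset.mem_range.1 hj)
  obtain ⟨k, rfl⟩ := Nat.exists_eq_add_of_le hj'
  rw [Algebra.smul_def, Nat.add_sub_cancel_left, div_pow, pow_add]
  field_simp

/-- A form on a line is a binary form. -/
theorem aeval_binary (hg : g.IsHomogeneous d) (x z : Fin n → L) {R : Type*} [CommRing R]
    [Algebra L R] (a b : R) :
    aeval (fun i => a * algebraMap L R (x i) + b * algebraMap L R (z i)) g =
      ∑ j ∈ Finset.range (d + 1), algebraMap L R ((onLine x z g).coeff j) * a ^ (d - j) * b ^ j := by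
  classical
  have hU : aeval (fun i => (X 0 : MvPolynomial (Fin 2) L) *
      algebraMap L (MvPolynomial (Fin 2) L) (x i) +
        X 1 * algebraMap L (MvPolynomial (Fin 2) L) (z i)) g =
      ∑ j ∈ Finset.range (d + 1), algebraMap L (MvPolynomial (Fin 2) L)
        ((onLine x z g).coeff j) * (X 0) ^ (d - j) * (X 1) ^ j := by
    have hinj : Function.Injective (IsScalarTower.toAlgHom L (MvPolynomial (Fin 2) L)
        (FractionRing (MvPolynomial (Fin 2) L))) :=
      IsFractionRing.injective (MvPolynomial (Fin 2) L) (FractionRing (MvPolynomial (Fin 2) L))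
    apply hinj
    rw [comp_aeval_apply]
    have h1 := aeval_binary_field hg x z (R := FractionRing (MvPolynomial (Fin 2) L))
      (IsScalarTower.toAlgHom L (MvPolynomial (Fin 2) L)
        (FractionRing (MvPolynomial (Fin 2) L)) (X 0))
      (IsScalarTower.toAlgHom L (MvPolynomial (Fin 2) L)
        (FractionRing (MvPolynomial (Fin 2) L)) (X 1)) (by
        rw [Ne, map_eq_zero_iff _ hinj]
        exact X_ne_zero 0)
    simp only [map_add, map_mul, map_sum, map_pow, AlgHom.commutes]
    exact h1
  have h2 := congrArg (aeval ![a, b] : MvPolynomial (Fin 2) L →ₐ[L] R) hU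
  rw [comp_aeval_apply] at h2
  simpa only [map_add, map_mul, map_sum, map_pow, AlgHom.commutes, aeval_X, Matrix.cons_val_zero,
    Matrix.cons_val_one] using h2

end binary

section osc

variable {K L : Type u} [Field K] [Field L] [Algebra K L] {n : ℕ}

/-- `f (a x + b z) = c a b ^ (d - 1)`: the line through `x` and `z` meets the hypersurface in these
points only, or lies in it. -/
def Osc (X : ProjVar K n 1) (x z : Fin (n + 1) → L) (c : L) : Prop :=
  ∀ (R : Type u) [CommRing R] [Algebra K R] [Algebra L R] [IsScalarTower K L R] (a b : R),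
    aeval (fun i => a * algebraMap L R (x i) + b * algebraMap L R (z i)) (X.form 0) =
      algebraMap L R c * a * b ^ (X.d 0 - 1)

/-- `f (a x + b z) = e b ^ d`: the line through `x` and `z` meets the hypersurface in `x` only, or
lies in it. -/
def Tan (X : ProjVar K n 1) (x z : Fin (n + 1) → L) (e : L) : Prop :=
  ∀ (R : Type u) [CommRing R] [Algebra K R] [Algebra L R] [IsScalarTower K L R] (a b : R),
    aeval (fun i => a * algebraMap L R (x i) + b * algebraMap L R (z i)) (X.form 0) =
      algebraMap L R e * b ^ (X.d 0)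

theorem osc_of (X : ProjVar K n 1) (hd : 2 ≤ X.d 0) {x z : Fin (n + 1) → L} (hx : X.IsPt x)
    (hz : X.IsPt z)
    (h : ∀ j, 1 ≤ j → j ≤ X.d 0 - 2 →
      (onLine x z (MvPolynomial.map (algebraMap K L) (X.form 0))).coeff j = 0) :
    Osc X x z ((onLine x z (MvPolynomial.map (algebraMap K L) (X.form 0))).coeff (X.d 0 - 1)) := by
  intro R _ _ _ _ a b
  have hg : (MvPolynomial.map (algebraMap K L) (X.form 0)).IsHomogeneous (X.d 0) := (X.hom 0).map _
  have h1 := aeval_binary hg x z a b
  rw [aeval_map_algebraMap] at h1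
  rw [h1]
  obtain ⟨f1, f2, f3⟩ := onLine_facts hg x z
  have e0 : eval x (MvPolynomial.map (algebraMap K L) (X.form 0)) = 0 := by
    rw [eval_map, ← aeval_def]
    exact hx.2 0
  have e1 : eval z (MvPolynomial.map (algebraMap K L) (X.form 0)) = 0 := by
    rw [eval_map, ← aeval_def]
    exact hz.2 0
  rw [Finset.sum_eq_single (X.d 0 - 1)]
  · have : X.d 0 - (X.d 0 - 1) = 1 := by omega
    rw [this, pow_one]
  · intro j hj hj1
    have hj' : j ≤ X.d 0 := Nat.lt_succ_iff.1 (Finset.mem_range.1 hj)
    have h0 : (onLine x z (MvPolynomial.map (algebraMap K L) (X.form 0))).coeff j = 0 := by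
      by_cases j0 : j = 0
      · rw [j0, f3, e0]
      by_cases jd : j = X.d 0
      · rw [jd, f2, e1]
      exact h j (by omega) (by omega)
    rw [h0, map_zero, zero_mul, zero_mul]
  · intro h'
    exact absurd (Finset.mem_range.2 (by omega)) h'

theorem tan_of (X : ProjVar K n 1) {x z : Fin (n + 1) → L} (hx : X.IsPt x)
    (h : ∀ j, 1 ≤ j → j < X.d 0 →
      (onLine x z (MvPolynomial.map (algebraMap K L) (X.form 0))).coeff j = 0) (hd : 0 < X.d 0) :
    Tan X x z (aeval z (X.form 0)) := by
  intro R _ _ _ _ a b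
  have hg : (MvPolynomial.map (algebraMap K L) (X.form 0)).IsHomogeneous (X.d 0) := (X.hom 0).map _
  have h1 := aeval_binary hg x z a b
  rw [aeval_map_algebraMap] at h1
  rw [h1]
  obtain ⟨f1, f2, f3⟩ := onLine_facts hg x z
  have e0 : eval x (MvPolynomial.map (algebraMap K L) (X.form 0)) = 0 := by
    rw [eval_map, ← aeval_def]
    exact hx.2 0
  have e1 : eval z (MvPolynomial.map (algebraMap K L) (X.form 0)) = aeval z (X.form 0) := by
    rw [eval_map, ← aeval_def]
  rw [Finset.sum_eq_single (X.d 0)]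
  · rw [Nat.sub_self, pow_zero, mul_one, f2, e1]
  · intro j hj hj1
    have hj' : j ≤ X.d 0 := Nat.lt_succ_iff.1 (Finset.mem_range.1 hj)
    have h0 : (onLine x z (MvPolynomial.map (algebraMap K L) (X.form 0))).coeff j = 0 := by
      by_cases j0 : j = 0
      · rw [j0, f3, e0]
      exact h j (by omega) (by omega)
    rw [h0, map_zero, zero_mul, zero_mul]
  · intro h'
    exact absurd (Finset.mem_range.2 (by omega)) h'

theorem sum_range_sq (m : ℕ) : ∑ j ∈ Finset.range (m + 1), j ^ 2 = ∑ q : Fin m, ((q : ℕ) + 1) ^ 2 := by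
  rw [Finset.sum_range_succ', Fin.sum_univ_eq_sum_range (fun q => (q + 1) ^ 2) m]
  simp

/-- **Osculating lines with a common point.** -/
theorem exists_osc (hL : C2 L) (X : ProjVar K n 1) (hd : 2 ≤ X.d 0)
    (hn : 2 * ∑ j ∈ Finset.range (X.d 0 - 1), j ^ 2 + (X.d 0) ^ 2 ≤ n)
    (x y : Fin (n + 1) → L) (hx : X.IsPt x) (hy : X.IsPt y) :
    ∃ (z : Fin (n + 1) → L) (c c' : L), X.IsPt z ∧ Osc X x z c ∧ Osc X y z c' := by
  classical
  set g := MvPolynomial.map (algebraMap K L) (X.form 0) with hgdef
  have hg : g.IsHomogeneous (X.d 0) := (X.hom 0).map _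
  let ι := Unit ⊕ (Fin (X.d 0 - 2) ⊕ Fin (X.d 0 - 2))
  let e : ι → ℕ := Sum.elim (fun _ => X.d 0) (Sum.elim (fun q => q + 1) (fun q => q + 1))
  let f : ι → MvPolynomial (Fin (n + 1)) L :=
    Sum.elim (fun _ => g) (Sum.elim (fun q => (genLine x g).coeff (q + 1))
      (fun q => (genLine y g).coeff (q + 1)))
  have hf : ∀ q, (f q).IsHomogeneous (e q) := by
    rintro (q | q | q)
    · exact hg
    · exact graded_genLine _ _ _
    · exact graded_genLine _ _ _
  have he : ∀ q, 0 < e q := by
    rintro (q | q | q)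
    · change 0 < X.d 0
      omega
    · exact Nat.succ_pos _
    · exact Nat.succ_pos _
  have hsum : ∑ q, e q ^ 2 < Fintype.card (Fin (n + 1)) := by
    have h2 : X.d 0 - 1 = (X.d 0 - 2) + 1 := by omega
    rw [h2, sum_range_sq] at hn
    rw [Fintype.sum_sum_type, Fintype.sum_sum_type, Fintype.card_fin]
    simp only [e, Sum.elim_inl, Sum.elim_inr, Finset.univ_unique, Finset.sum_const,
      Finset.card_singleton, one_smul]
    omega
  obtain ⟨z, hz0, hz⟩ := c2_iff.mp hL ι (Fin (n + 1)) f e hf he hsum
  have hzX : X.IsPt z := by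
    refine ⟨hz0, fun i => ?_⟩
    have h1 : eval z g = 0 := hz (Sum.inl ())
    rw [hgdef, eval_map, ← aeval_def] at h1
    rw [Subsingleton.elim i 0]
    exact h1
  refine ⟨z, _, _, hzX, osc_of X hd hx hzX fun j h1 h2 => ?_,
    osc_of X hd hy hzX fun j h1 h2 => ?_⟩
  · obtain ⟨q, rfl⟩ : ∃ q, j = q + 1 := ⟨j - 1, by omega⟩
    rw [← map_genLine, Polynomial.coeff_map]
    exact hz (Sum.inr (Sum.inl ⟨q, by omega⟩))
  · obtain ⟨q, rfl⟩ : ∃ q, j = q + 1 := ⟨j - 1, by omega⟩
    rw [← map_genLine, Polynomial.coeff_map]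
    exact hz (Sum.inr (Sum.inr ⟨q, by omega⟩))

/-- **A line which meets the hypersurface in one point.** -/
theorem exists_tan (hL : C2 L) (X : ProjVar K n 1) (hd : 0 < X.d 0)
    (hn : ∑ j ∈ Finset.range (X.d 0), j ^ 2 < n) (x : Fin (n + 1) → L) (hx : X.IsPt x) :
    ∃ (z : Fin (n + 1) → L) (e : L), z ≠ 0 ∧ (∀ a : L, z ≠ a • x) ∧ Tan X x z e := by
  classical
  set g := MvPolynomial.map (algebraMap K L) (X.form 0) with hgdef
  have hg : g.IsHomogeneous (X.d 0) := (X.hom 0).map _
  obtain ⟨j0, hj0⟩ := Function.ne_iff.1 hx.1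
  let ι := Unit ⊕ Fin (X.d 0 - 1)
  let e : ι → ℕ := Sum.elim (fun _ => 1) (fun q => q + 1)
  let f : ι → MvPolynomial (Fin (n + 1)) L :=
    Sum.elim (fun _ => MvPolynomial.X j0) (fun q => (genLine x g).coeff (q + 1))
  have hf : ∀ q, (f q).IsHomogeneous (e q) := by
    rintro (q | q)
    · exact isHomogeneous_X _ _
    · exact graded_genLine _ _ _
  have he : ∀ q, 0 < e q := by
    rintro (q | q)
    · exact Nat.one_pos
    · exact Nat.succ_pos _
  have hsum : ∑ q, e q ^ 2 < Fintype.card (Fin (n + 1)) := by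
    have h2 : X.d 0 = (X.d 0 - 1) + 1 := by omega
    rw [h2, sum_range_sq] at hn
    rw [Fintype.sum_sum_type, Fintype.card_fin]
    simp only [e, Sum.elim_inl, Sum.elim_inr, Finset.univ_unique, Finset.sum_const,
      Finset.card_singleton, one_smul]
    omega
  obtain ⟨z, hz0, hz⟩ := c2_iff.mp hL ι (Fin (n + 1)) f e hf he hsum
  have hzj : z j0 = 0 := by
    have h1 := hz (Sum.inl ())
    change eval z (MvPolynomial.X j0) = 0 at h1
    rwa [eval_X] at h1
  refine ⟨z, _, hz0, ?_, tan_of X hx (fun j h1 h2 => ?_) hd⟩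
  · intro a ha
    have h1 : z j0 = a * x j0 := congrFun ha j0
    rw [hzj] at h1
    rcases mul_eq_zero.1 h1.symm with h | h
    · apply hz0
      rw [ha, h, zero_smul]
    · exact hj0 h
  · obtain ⟨q, rfl⟩ : ∃ q, j = q + 1 := ⟨j - 1, by omega⟩
    rw [← map_genLine, Polynomial.coeff_map]
    exact hz (Sum.inr ⟨q, by omega⟩)

/-- The three points span a plane. -/
theorem Osc.linearIndependent {X : ProjVar K n 1} (hd : 2 ≤ X.d 0) {x z z' : Fin (n + 1) → L}
    {c e : L} (h : Osc X x z c) (hc : c ≠ 0) (h' : Tan X x z' e) (hz' : ∀ a : L, z' ≠ a • x) :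
    LinearIndependent L ![x, z, z'] := by
  have key : ∀ a b : L, aeval (fun i => a * x i + b * z i) (X.form 0) =
      c * a * b ^ (X.d 0 - 1) := fun a b => by
    have := h L a b
    simpa using this
  have key' : ∀ a b : L, aeval (fun i => a * x i + b * z' i) (X.form 0) =
      e * b ^ (X.d 0) := fun a b => by
    have := h' L a b
    simpa using this
  have hd1 : X.d 0 - 1 ≠ 0 := by omega
  -- the line through `x` and `z`
  have h2 : ∀ p : L, z ≠ p • x := by
    intro p hp
    have h3 := key (-p) 1
    have h4 : (fun i => -p * x i + 1 * z i) = fun _ => (0 : L) := by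
      funext i
      rw [hp, Pi.smul_apply, smul_eq_mul]
      ring
    rw [h4] at h3
    have h5 := key (1 - p) 1
    have h6 : (fun i => (1 - p) * x i + 1 * z i) = fun i => (1 : L) * x i + 0 * z i := by
      funext i
      rw [hp, Pi.smul_apply, smul_eq_mul]
      ring
    rw [h6, key 1 0, zero_pow hd1, mul_zero, one_pow, mul_one] at h5
    have hp1 : 1 - p = 0 := (mul_eq_zero.1 h5.symm).resolve_left hc
    have h7 := key (2 - p) 1
    have h8 : (fun i => (2 - p) * x i + 1 * z i) = fun i => (2 : L) * x i + 0 * z i := by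
      funext i
      rw [hp, Pi.smul_apply, smul_eq_mul]
      ring
    rw [h8, key 2 0, zero_pow hd1, mul_zero, one_pow, mul_one] at h7
    have hp2 : 2 - p = 0 := (mul_eq_zero.1 h7.symm).resolve_left hc
    have : (1 : L) = 0 := by linear_combination hp2 - hp1
    exact one_ne_zero this
  have h3 : ∀ p q : L, z' ≠ p • x + q • z := by
    intro p q hpq
    have h4 := key' 0 1
    have h5 := key' 1 1
    have h6 : (fun i => 0 * x i + 1 * z' i) = fun i => p * x i + q * z i := by
      funext i
      rw [hpq, Pi.add_apply, Pi.smul_apply, Pi.smul_apply, smul_eq_mul, smul_eq_mul]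
      ring
    have h7 : (fun i => 1 * x i + 1 * z' i) = fun i => (1 + p) * x i + q * z i := by
      funext i
      rw [hpq, Pi.add_apply, Pi.smul_apply, Pi.smul_apply, smul_eq_mul, smul_eq_mul]
      ring
    rw [h6, key] at h4
    rw [h7, key, ← h4] at h5
    have h8 : c * q ^ (X.d 0 - 1) = 0 := by linear_combination h5
    have hq : q = 0 := by
      rcases mul_eq_zero.1 h8 with h | h
      · exact absurd h hc
      · exact pow_eq_zero_iff hd1 |>.1 h
    apply hz' p
    rw [hpq, hq, zero_smul, add_zero]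
  rw [Fintype.linearIndependent_iff]
  intro v hv
  rw [Fin.sum_univ_three] at hv
  simp only [Matrix.cons_val_zero, Matrix.cons_val_one, Matrix.cons_val_two, Matrix.head_cons,
    Matrix.tail_cons] at hv
  have e2 : v 2 = 0 := by
    by_contra hne
    apply h3 (-(v 0 / v 2)) (-(v 1 / v 2))
    funext i
    have h4 := congrFun hv i
    simp only [Pi.add_apply, Pi.smul_apply, smul_eq_mul, Pi.zero_apply] at h4 ⊢
    field_simp
    linear_combination h4
  rw [e2, zero_smul, add_zero] at hv
  have e1 : v 1 = 0 := by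
    by_contra hne
    apply h2 (-(v 0 / v 1))
    funext i
    have h4 := congrFun hv i
    simp only [Pi.add_apply, Pi.smul_apply, smul_eq_mul, Pi.zero_apply] at h4 ⊢
    field_simp
    linear_combination h4
  rw [e1, zero_smul, add_zero] at hv
  have hx0 : x ≠ 0 := by
    intro hx0
    have h4 := key 1 1
    have h5 : (fun i => 1 * x i + 1 * z i) = fun i => 0 * x i + 1 * z i := by
      funext i
      rw [hx0, Pi.zero_apply]
      ring
    rw [h5, key 0 1] at h4
    simp only [mul_zero, mul_one, one_pow] at h4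
    exact hc h4.symm
  have e0 : v 0 = 0 := (smul_eq_zero.1 hv).resolve_right hx0
  intro i
  fin_cases i
  · exact e0
  · exact e1
  · exact e2

/-- If the line lies in the hypersurface. -/
theorem Osc.line {X : ProjVar K n 1} {x z : Fin (n + 1) → L} (h : Osc X x z 0) (hx : X.IsPt x) :
    X.IsPt (fun i => RatFunc.C (x i) + RatFunc.X * RatFunc.C (z i) :
      Fin (n + 1) → RatFunc L) := by
  refine ⟨fun h0 => hx.1 ?_, fun i => ?_⟩
  · funext i
    have h1 := congrFun h0 i
    have h2 : algebraMap (Polynomial L) (RatFunc L)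
        (Polynomial.C (x i) + Polynomial.X * Polynomial.C (z i)) = 0 := by
      rw [map_add, map_mul, RatFunc.algebraMap_C, RatFunc.algebraMap_C, RatFunc.algebraMap_X]
      exact h1
    have h3 := (map_eq_zero_iff _ (RatFunc.algebraMap_injective L)).mp h2
    have h4 := congrArg (Polynomial.coeff · 0) h3
    simpa using h4
  · have h1 := h (RatFunc L) 1 RatFunc.X
    rw [map_zero, zero_mul, zero_mul] at h1
    rw [Subsingleton.elim i 0, ← h1]
    refine congrArg (fun v => aeval v (X.form 0)) (funext fun k => ?_)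
    rw [one_mul]
    rfl

end osc

end ZC
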