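import Mathlib
import Pool.Agent.Helper72.ZC.Defs

/-! # MP_bd895b_L, row LOC: C2 passes to completions -/

set_option autoImplicit false

namespace Pool.Agent.Helper33.ZC

open MvPolynomial Filter Topology Uniformity

universe u

open _root_.ZC (C2)

theorem degree_eq_of_mem {K : Type*} [Field K] {N n : ℕ} {g : MvPolynomial (Fin N) K}
    (hg : g.IsHomogeneous n) {a : Fin N →₀ ℕ} (ha : a ∈ g.support) : a.degree = n := by
  rw [hg.degree_eq_sum_deg_support ha]
  rfl

theorem eval_smul_of_homogeneous {K : Type*} [Field K] {N n : ℕ} {g : MvPolynomial (Fin N) K}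
    (hg : g.IsHomogeneous n) (c : K) (x : Fin N → K) : eval (c • x) g = c ^ n * eval x g := by
  rw [eval_eq', eval_eq', Finset.mul_sum]
  refine Finset.sum_congr rfl fun a ha => ?_
  have h1 : ∑ j, a j = n := by
    rw [← degree_eq_of_mem hg ha, Finsupp.degree_eq_sum]
  simp only [Pi.smul_apply, smul_eq_mul, mul_pow]
  rw [Finset.prod_mul_distrib, Finset.prod_pow_eq_pow_sum, h1]
  ring

section gen
variable {k : Type*} {L : Type*} [Field k] [Field L] [TopologicalSpace L] [IsTopologicalRing L] [T2Space L]

/-- abstract form: `k → L` dense, `S` compact subset of `L` containing the image of a valuation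
ring of `k` -/
theorem c2_of_dense (h : C2 k) (φ : k →+* L) (hd : DenseRange φ) (A : ValuationSubring k)
    (S : Set L) (hS : IsCompact S) (hA : ∀ a ∈ A, φ a ∈ S) : C2 L := by
  classical
  intro N r e f hf he hN
  -- the index set of the coefficients
  let J : Type := Σ i : Fin r, {a : Fin N →₀ ℕ // a ∈ (f i).support}
  -- the compact set of solutions
  let T : Set (Fin N → L) := (Set.univ.pi fun _ => S) ∩ {x | ∃ j, x j = 1}
  have hT : IsCompact T := by
    refine (isCompact_univ_pi fun _ => hS).inter_right ?_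
    have : {x : Fin N → L | ∃ j, x j = 1} = ⋃ j, {x | x j = 1} := by
      ext x; simp
    rw [this]
    exact isClosed_iUnion_of_finite fun j => isClosed_eq (continuous_apply j) continuous_const
  -- the evaluation
  let E : Fin r → (J → L) → (Fin N → L) → L := fun i c x =>
    ∑ a : {a : Fin N →₀ ℕ // a ∈ (f i).support}, c ⟨i, a⟩ * ∏ j, x j ^ (a.1 j)
  have hE : ∀ i, Continuous fun p : (J → L) × (Fin N → L) => E i p.1 p.2 := by
    intro i
    refine continuous_finsetSum _ fun a _ => ?_
    refine Continuous.mul ((continuous_apply _).comp continuous_fst) ?_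
    exact continuous_finsetProd _ fun j _ => ((continuous_apply j).comp continuous_snd).pow _
  let Z : Set (J → L) := {c | ∃ x ∈ T, ∀ i, E i c x = 0}
  have hZ : IsClosed Z := by
    have h1 : IsClosed {p : (J → L) × (Fin N → L) | ∀ i, E i p.1 p.2 = 0} := by
      simp only [Set.ofPred_forall]
      exact isClosed_iInter fun i => isClosed_eq (hE i) continuous_const
    have hTc : CompactSpace T := isCompact_iff_compactSpace.1 hT
    have h2 : Z = Prod.fst '' {p : (J → L) × T | ∀ i, E i p.1 p.2 = 0} := by
      ext c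
      constructor
      · rintro ⟨x, hx, hx'⟩
        exact ⟨(c, ⟨x, hx⟩), hx', rfl⟩
      · rintro ⟨⟨c', x⟩, h3, rfl⟩
        exact ⟨x.1, x.2, h3⟩
    rw [h2]
    refine isClosedMap_fst_of_compactSpace _ ?_
    exact h1.preimage (by fun_prop : Continuous fun p : (J → L) × T => (p.1, (p.2 : Fin N → L)))
  have hZd : Dense Z := by
    have h1 : Dense (Set.univ.pi fun _ : J => Set.range φ) := dense_pi _ fun _ _ => hd
    refine h1.mono fun c hc => ?_
    choose c' hc' using fun a => hc a (Set.mem_univ a)
    -- the polynomials over `k`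
    let g : Fin r → MvPolynomial (Fin N) k := fun i =>
      ∑ a : {a : Fin N →₀ ℕ // a ∈ (f i).support}, monomial a.1 (c' ⟨i, a⟩)
    have hg : ∀ i, (g i).IsHomogeneous (e i) := by
      intro i
      refine IsHomogeneous.sum _ _ _ fun a _ => isHomogeneous_monomial _ ?_
      exact degree_eq_of_mem (hf i) a.2
    obtain ⟨x, hx0, hx⟩ := h N r e g hg he hN
    -- scale
    obtain ⟨j, hj⟩ : ∃ j, ∀ i, A.valuation (x i) ≤ A.valuation (x j) := by
      have hN0 : 0 < N := by
        rcases Nat.eq_zero_or_pos N with h0 | h0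
        · omega
        · exact h0
      have : Nonempty (Fin N) := ⟨⟨0, hN0⟩⟩
      exact Finite.exists_max fun i => A.valuation (x i)
    have hxj : x j ≠ 0 := by
      intro h0
      apply hx0
      funext i
      have := hj i
      rw [h0, map_zero, le_zero_iff, map_eq_zero] at this
      exact this
    refine ⟨fun i => φ (x i / x j), ⟨fun i _ => hA _ ?_, j, ?_⟩, fun i => ?_⟩
    · rw [← ValuationSubring.valuation_le_one_iff, map_div₀]
      exact div_le_one_of_le₀ (hj i) zero_le
    · simp only
      rw [div_self hxj, map_one]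
    · have h2 : E i c (fun i => φ (x i / x j)) = φ (eval (fun i => x i / x j) (g i)) := by
        simp only [E, g, map_sum, eval_monomial, map_mul, hc']
        refine Finset.sum_congr rfl fun a _ => ?_
        rw [Finsupp.prod_fintype _ _ (fun i => pow_zero _), map_prod]
        simp only [map_pow]
      rw [h2]
      have h3 : (fun i => x i / x j) = (x j)⁻¹ • x := by
        funext i
        simp [div_eq_inv_mul]
      rw [h3, eval_smul_of_homogeneous (hg i), hx i, mul_zero, map_zero]
  have hall : (fun a : J => (f a.1).coeff a.2.1) ∈ Z := by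
    have := hZd.closure_eq
    rw [hZ.closure_eq] at this
    rw [this]
    trivial
  obtain ⟨x, ⟨-, j, hj⟩, hx⟩ := hall
  refine ⟨x, fun h0 => ?_, fun i => ?_⟩
  · rw [h0] at hj
    simp at hj
  · rw [← hx i, eval_eq']
    exact (Finset.sum_coe_sort (f i).support fun a => (f i).coeff a * ∏ j, x j ^ (a j)).symm

end gen

section val
variable {k : Type*} [Field k] (A : ValuationSubring k)

/-- the valuation ring is totally bounded if all its proper quotients are finite -/
theorem totallyBounded_integer (hne : A ≠ ⊤)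
    (hfin : ∀ z : A, z ≠ 0 → Finite (A ⧸ Ideal.span {z})) :
    TotallyBounded (WithVal.toVal A.valuation '' (A : Set k)) := by
  rw [(Valued.hasBasis_uniformity (WithVal A.valuation) A.ValueGroup).totallyBounded_iff]
  intro γ _
  -- an element of smaller valuation
  obtain ⟨r, s, hr, hs, hrs⟩ := Valuation.exists_div_eq_of_unit
    (Valued.v : Valuation (WithVal A.valuation) A.ValueGroup) γ
  obtain ⟨x, hx⟩ : ∃ x : k, x ∉ A := by
    by_contra hcon
    push Not at hcon
    exact hne (eq_top_iff.2 fun x _ => hcon x)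
  have hx0 : x ≠ 0 := fun h => hx (h ▸ A.zero_mem)
  have hvx : 1 < A.valuation x := by
    rw [← not_le, ValuationSubring.valuation_le_one_iff]
    exact hx
  have hr0 : r ≠ 0 := fun h => by rw [h, map_zero] at hr; exact lt_irrefl _ hr
  have hs0 : s ≠ 0 := fun h => by rw [h, map_zero] at hs; exact lt_irrefl _ hs
  set y : k := r.ofVal / s.ofVal with hy
  have hr0' : r.ofVal ≠ 0 := fun h => hr0 (WithVal.ofVal_injective _ h)
  have hs0' : s.ofVal ≠ 0 := fun h => hs0 (WithVal.ofVal_injective _ h)
  have hy0 : y ≠ 0 := div_ne_zero hr0' hs0'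
  have hvy : 0 < A.valuation y := zero_lt_iff.2 ((Valuation.ne_zero_iff _).2 hy0)
  obtain ⟨z, hz0, hzA, hzy⟩ : ∃ z : k, z ≠ 0 ∧ z ∈ A ∧ A.valuation z < A.valuation y := by
    have hxi : A.valuation x⁻¹ < 1 := by
      rw [map_inv₀]
      exact inv_lt_one_of_one_lt₀ hvx
    by_cases hyA : y ∈ A
    · refine ⟨x⁻¹ * y, mul_ne_zero (inv_ne_zero hx0) hy0, A.mul_mem _ _ ?_ hyA, ?_⟩
      · rw [← ValuationSubring.valuation_le_one_iff]; exact hxi.le
      · rw [map_mul]
        exact mul_lt_of_lt_one_left hvy hxi
    · refine ⟨x⁻¹, inv_ne_zero hx0, ?_, hxi.trans ?_⟩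
      · rw [← ValuationSubring.valuation_le_one_iff]; exact hxi.le
      · rw [← not_le, ValuationSubring.valuation_le_one_iff]
        exact hyA
  -- the finite net
  have hf := hfin ⟨z, hzA⟩ (fun h => hz0 (congrArg Subtype.val h))
  refine ⟨Set.range fun q : A ⧸ Ideal.span {(⟨z, hzA⟩ : A)} =>
    WithVal.toVal A.valuation (Quotient.out q : A), Set.finite_range _, ?_⟩
  rintro _ ⟨a, ha, rfl⟩
  rw [Set.mem_iUnion₂]
  refine ⟨_, ⟨Ideal.Quotient.mk _ ⟨a, ha⟩, rfl⟩, ?_⟩
  have h1 : (Ideal.Quotient.mk (Ideal.span {(⟨z, hzA⟩ : A)})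
      (Quotient.out (Ideal.Quotient.mk (Ideal.span {(⟨z, hzA⟩ : A)}) ⟨a, ha⟩))) =
      Ideal.Quotient.mk _ ⟨a, ha⟩ := Ideal.Quotient.mk_out _
  rw [Ideal.Quotient.mk_eq_mk_iff_sub_mem, Ideal.mem_span_singleton] at h1
  obtain ⟨b, hb⟩ := h1
  set o := Quotient.out (Ideal.Quotient.mk (Ideal.span {(⟨z, hzA⟩ : A)}) ⟨a, ha⟩)
  have h2 : ((o : A) : k) - a = z * (b : k) := congrArg Subtype.val hb
  have h3 : A.valuation ((o : A) - a : k) < A.valuation y := by
    rw [h2, map_mul]
    refine lt_of_le_of_lt ?_ hzy
    exact mul_le_of_le_one_right' ((ValuationSubring.valuation_le_one_iff A _).2 b.2)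
  have h4 : (Valued.v : Valuation (WithVal A.valuation) A.ValueGroup).restrict
      (WithVal.toVal A.valuation (o : A) - WithVal.toVal A.valuation a) < γ.1 := by
    rw [← hrs, lt_div_iff₀ ((Valuation.restrict_pos_iff Valued.v s).mpr hs), ← map_mul,
      Valuation.restrict_lt_iff]
    have h5 : A.valuation (((o : A) - a : k) * s.ofVal) < A.valuation r.ofVal := by
      rw [map_mul]
      have h6 : A.valuation r.ofVal = A.valuation y * A.valuation s.ofVal := by
        rw [← map_mul, hy, div_mul_cancel₀ _ hs0']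
      rw [h6]
      exact mul_lt_mul_of_pos_right h3 (zero_lt_iff.2 ((Valuation.ne_zero_iff _).2 hs0'))
    exact h5
  exact h4

theorem c2_completion (h : C2 k) (hne : A ≠ ⊤)
    (hfin : ∀ z : A, z ≠ 0 → Finite (A ⧸ Ideal.span {z})) : C2 A.valuation.Completion := by
  have ht := (totallyBounded_integer A hne hfin).image
    (UniformSpace.Completion.uniformContinuous_coe (WithVal A.valuation))
  have hc := (ht.closure).isCompact_of_isClosed isClosed_closure
  let φ : k →+* A.valuation.Completion :=
    (UniformSpace.Completion.coeRingHom (α := WithVal A.valuation)).comp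
      (WithVal.equiv A.valuation).symm.toRingHom
  refine c2_of_dense h φ ?_ A _ hc fun a ha => subset_closure ⟨_, ⟨a, ha, rfl⟩, rfl⟩
  exact (UniformSpace.Completion.denseRange_coe (α := WithVal A.valuation)).comp
    (WithVal.equiv A.valuation).symm.surjective.denseRange
    (UniformSpace.Completion.continuous_coe _)

/-- the finiteness hypothesis for a discrete valuation ring with finite residue field -/
theorem finite_quotient [IsDiscreteValuationRing A] [Finite (IsLocalRing.ResidueField A)]
    (z : A) (hz : z ≠ 0) : Finite (A ⧸ Ideal.span {z}) := by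
  obtain ⟨ϖ, hϖ⟩ := IsDiscreteValuationRing.exists_irreducible A
  obtain ⟨n, hn⟩ := IsDiscreteValuationRing.ideal_eq_span_pow_irreducible
    (s := Ideal.span {z}) (by simpa using hz) hϖ
  rw [hn, ← Ideal.span_singleton_pow, ← hϖ.maximalIdeal_eq]
  have : Finite (A ⧸ IsLocalRing.maximalIdeal A) := ‹Finite (IsLocalRing.ResidueField A)›
  exact Ideal.finite_quotient_pow (IsNoetherian.noetherian _) n

/-- C2 of the completion at a discrete valuation ring with finite residue field -/
theorem c2_completion' (h : C2 k) [IsDiscreteValuationRing A]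
    [Finite (IsLocalRing.ResidueField A)] : C2 A.valuation.Completion := by
  refine c2_completion A h ?_ (finite_quotient A)
  rintro rfl
  obtain ⟨ϖ, hϖ⟩ := IsDiscreteValuationRing.exists_irreducible (⊤ : ValuationSubring k)
  refine hϖ.not_isUnit ?_
  have h0 : (ϖ : k) ≠ 0 := fun h => hϖ.ne_zero (Subtype.ext h)
  exact IsUnit.of_mul_eq_one ⟨(ϖ : k)⁻¹, trivial⟩ (Subtype.ext (mul_inv_cancel₀ h0))

end val

end Pool.Agent.Helper33.ZC

namespace ZC

universe u

/-- Row LOC: `C2` passes to the completion. -/
theorem C2.completion {k : Type u} [Field k] (h : C2 k) (A : ValuationSubring k) (_hA : A ≠ ⊤)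
    [IsDiscreteValuationRing A] [Finite (IsLocalRing.ResidueField A)] :
    C2 (A.valuation).Completion :=
  Pool.Agent.Helper33.ZC.c2_completion' A h

end ZC
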