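import Pool.Agent.Helper33.ZC.Quot
import Pool.Agent.Helper25.PC.DegZeros

/-!
The degree of the divisor of a function on a curve over any field (Helper33, rows D4 and D5 of
MP_bd895b_L).
-/

set_option autoImplicit false

namespace ZC

universe u

open PCl Polynomial

variable {K E : Type u} [Field K] [Field E] [Algebra K E]

/-- Constants have order zero. -/
theorem Place.o_const (w : Place K E) {o : E → ℤ} (h : IsOrd w.A o) {a : K} (ha : a ≠ 0) :
    o (algebraMap K E a) = 0 := by
  have h0 : algebraMap K E a ≠ 0 := by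
    rw [Ne, map_eq_zero]
    exact ha
  have h1 := (h.nonneg _ h0).2 (w.mem a)
  have h2 := (h.nonneg _ (inv_ne_zero h0)).2 (by
    rw [← map_inv₀]
    exact w.mem a⁻¹)
  rw [h.inv h0] at h2
  omega

theorem Place.aeval_bound (w : Place K E) {o : E → ℤ} (h : IsOrd w.A o) {t : E}
    (ht : t ≠ 0) (p : K[X]) {r : ℕ} (hp : p.natDegree ≤ r) (h0 : aeval t p ≠ 0) :
    -((r : ℤ) * max (-(o t)) 0) ≤ o (aeval t p) := by
  rw [aeval_eq_sum_range' (Nat.lt_succ_of_le hp)] at h0 ⊢
  refine h.le_sum _ _ _ (fun j hj hj0 => ?_) h0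
  have hj' : j ≤ r := Nat.lt_succ_iff.1 (Finset.mem_range.1 hj)
  have hc : p.coeff j ≠ 0 := by
    intro hc
    apply hj0
    rw [hc, zero_smul]
  rw [Algebra.smul_def, h.mul _ _ (by rwa [Ne, map_eq_zero]) (pow_ne_zero _ ht),
    w.o_const h hc, h.pow ht, zero_add]
  have h1 : -(o t) ≤ max (-(o t)) 0 := le_max_left _ _
  have h2 : 0 ≤ max (-(o t)) 0 := le_max_right _ _
  have h3 : (j : ℤ) ≤ r := by exact_mod_cast hj'
  have h4 : (0 : ℤ) ≤ j := by positivity
  nlinarith

/-- Finite dimensional spaces of functions with poles bounded by a fixed divisor and `r` times the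
divisor of poles of `t`. -/
theorem latticeK (o : Place K E → E → ℤ) (ho : ∀ w, IsOrd w.A (o w))
    (hfa : ∀ z : E, z ≠ 0 → {w : Place K E | o w z ≠ 0}.Finite)
    {t : E} (ht0 : t ≠ 0) {n : ℕ} (hI : Ind K t n) :
    ∃ (S : Finset (Place K E)) (C : Place K E → ℕ), (∀ w ∉ S, C w = 0) ∧
      ∀ r : ℕ, ∃ W : Submodule K E, Module.Finite K W ∧ Module.finrank K W = n * (r + 1) ∧
        ∀ y ∈ W, y ≠ 0 → ∀ w, -(C w : ℤ) - r * max (-(o w t)) 0 ≤ o w y := by
  classical
  obtain ⟨u, hu⟩ := hI
  have hu0 : ∀ i, u i ≠ 0 := by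
    intro i hi
    have h1 := hu (Pi.single i 1) (by
      rw [Finset.sum_eq_single i]
      · rw [hi, mul_zero]
      · intro j _ hj
        rw [Pi.single_eq_of_ne hj, map_zero, zero_mul]
      · intro h
        exact absurd (Finset.mem_univ i) h)
    have h2 := congrFun h1 i
    rw [Pi.single_eq_same] at h2
    exact one_ne_zero h2
  have hSf : (⋃ i, {w : Place K E | o w (u i) ≠ 0}).Finite :=
    Set.finite_iUnion fun i => hfa _ (hu0 i)
  let C : Place K E → ℕ := fun w => Finset.univ.sup fun i => (-(o w (u i))).toNat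
  refine ⟨hSf.toFinset, C, ?_, ?_⟩
  · intro w hw
    simp only [C]
    rw [← Nat.le_zero, Finset.sup_le_iff]
    intro i _
    rw [Set.Finite.mem_toFinset, Set.mem_iUnion] at hw
    push Not at hw
    have h2 : o w (u i) = 0 := by
      by_contra h
      exact hw i h
    rw [h2]
    simp
  · intro r
    let φ : (Fin n → degreeLT K (r + 1)) →ₗ[K] E :=
      { toFun := fun c => ∑ i, aeval t (c i : K[X]) * u i
        map_add' := fun a b => by
          rw [← Finset.sum_add_distrib]
          refine Finset.sum_congr rfl fun i _ => ?_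
          simp [add_mul]
        map_smul' := fun a c => by
          rw [RingHom.id_apply, Finset.smul_sum]
          refine Finset.sum_congr rfl fun i _ => ?_
          simp }
    have hφ : Function.Injective φ := by
      rw [← LinearMap.ker_eq_bot, LinearMap.ker_eq_bot']
      intro c hc
      have := hu (fun i => (c i : K[X])) hc
      funext i
      exact Subtype.ext (congrFun this i)
    have hfinD : Module.Finite K (degreeLT K (r + 1)) :=
      Module.Finite.equiv (degreeLTEquiv K (r + 1)).symm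
    refine ⟨LinearMap.range φ, inferInstance, ?_, ?_⟩
    · rw [LinearMap.finrank_range_of_inj hφ, Module.finrank_pi_fintype]
      simp only [(degreeLTEquiv K (r + 1)).finrank_eq, Module.finrank_fin_fun, Finset.sum_const,
        Finset.card_univ, Fintype.card_fin, smul_eq_mul]
    · rintro y ⟨c, rfl⟩ hy w
      have hφc : φ c = ∑ i, aeval t (c i : K[X]) * u i := rfl
      rw [hφc] at hy ⊢
      refine (ho w).le_sum _ _ _ (fun i _ hi0 => ?_) hy
      have h0 : aeval t (c i : K[X]) ≠ 0 := fun h => hi0 (by rw [h, zero_mul])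
      rw [(ho w).mul _ _ h0 (hu0 i)]
      have hdeg : ((c i : K[X])).natDegree ≤ r := by
        have h1 := mem_degreeLT.1 (c i).2
        by_cases hz : (c i : K[X]) = 0
        · rw [hz]; simp
        rw [degree_eq_natDegree hz] at h1
        exact Nat.lt_succ_iff.1 (by exact_mod_cast h1)
      have h1 := w.aeval_bound (ho w) ht0 (c i : K[X]) hdeg h0
      have h2 : (-(o w (u i))).toNat ≤ C w :=
        Finset.le_sup (f := fun i => (-(o w (u i))).toNat) (Finset.mem_univ i)
      have h3 : -(o w (u i)) ≤ (C w : ℤ) := by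
        have h4 : -(o w (u i)) ≤ ((-(o w (u i))).toNat : ℤ) := Int.self_le_toNat _
        have h5 : (((-(o w (u i))).toNat : ℕ) : ℤ) ≤ (C w : ℤ) := by exact_mod_cast h2
        linarith
      linarith

/-- Functions in a space of large dimension with prescribed orders. -/
theorem countK (o : Place K E → E → ℤ) (ho : ∀ w, IsOrd w.A (o w))
    (hdvr : ∀ w : Place K E, IsDiscreteValuationRing w.A)
    (hres : ∀ w : Place K E, Module.Finite K w.res)
    (T : Finset (Place K E)) (W : Submodule K E) [Module.Finite K W]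
    (a b : Place K E → ℤ) (hab : ∀ w ∈ T, 0 ≤ a w + b w)
    (hW : ∀ y ∈ W, y ≠ 0 → ∀ w ∈ T, -(a w) ≤ o w y)
    (hlt : ∑ w ∈ T, (a w + b w).toNat * w.deg < Module.finrank K W) :
    ∃ y ∈ W, y ≠ 0 ∧ ∀ w ∈ T, b w ≤ o w y := by
  classical
  choose s hs0 hs using fun w : Place K E => (ho w).exists_eq (a w)
  choose c hc0 hc using fun w : Place K E => (ho w).exists_eq (a w + b w)
  have hcA : ∀ w : T, c w ∈ w.1.A := fun w =>
    ((ho w).nonneg _ (hc0 w)).1 (by rw [hc]; exact hab w w.2)
  have hfr : ∀ w : T, Module.Finite K (w.1.A ⧸ Ideal.span {(⟨c w, hcA w⟩ : w.1.A)}) ∧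
      Module.finrank K (w.1.A ⧸ Ideal.span {(⟨c w, hcA w⟩ : w.1.A)})
        = (a w + b w).toNat * w.1.deg := by
    intro w
    have h1 := hdvr w
    have h2 := hres w
    have h3 := w.1.finrank_quot (ho w) ⟨c w, hcA w⟩ (fun h => hc0 w (congrArg Subtype.val h))
    rw [hc] at h3
    exact h3
  have hmem : ∀ (w : T) (y : E), y ∈ W → s w * y ∈ w.1.A := by
    intro w y hy
    by_cases hy0 : y = 0
    · rw [hy0, mul_zero]
      exact w.1.A.zero_mem
    rw [← (ho w).nonneg _ (mul_ne_zero (hs0 w) hy0), (ho w).mul _ _ (hs0 w) hy0, hs]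
    have := hW y hy hy0 w w.2
    linarith
  let g : ∀ w : T, W →ₗ[K] w.1.A := fun w =>
    { toFun := fun y => ⟨s w * y, hmem w y y.2⟩
      map_add' := fun x y => Subtype.ext (by
        change s w * ((x : E) + y) = s w * x + s w * y
        ring)
      map_smul' := fun x y => Subtype.ext (by
        rw [RingHom.id_apply]
        rw [Algebra.smul_def]
        change s w * (x • (y : E)) = algebraMap K E x * (s w * y)
        rw [Algebra.smul_def]
        ring) }
  let φ : W →ₗ[K] (∀ w : T, w.1.A ⧸ Ideal.span {(⟨c w, hcA w⟩ : w.1.A)}) :=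
    LinearMap.pi fun w =>
      (Ideal.Quotient.mkₐ K (Ideal.span {(⟨c w, hcA w⟩ : w.1.A)})).toLinearMap ∘ₗ g w
  have hfi : ∀ w : T, Module.Finite K (w.1.A ⧸ Ideal.span {(⟨c w, hcA w⟩ : w.1.A)}) :=
    fun w => (hfr w).1
  have hd : Module.finrank K (∀ w : T, w.1.A ⧸ Ideal.span {(⟨c w, hcA w⟩ : w.1.A)})
      < Module.finrank K W := by
    rw [Module.finrank_pi_fintype, Finset.sum_congr rfl fun w _ => (hfr w).2,
      Finset.sum_coe_sort T (fun w => (a w + b w).toNat * w.deg)]
    exact hlt
  have hker := LinearMap.ker_ne_bot_of_finrank_lt (f := φ) hd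
  obtain ⟨y, hyk, hy0⟩ := Submodule.exists_mem_ne_zero_of_ne_bot hker
  refine ⟨y, y.2, fun h => hy0 (Subtype.ext h), fun w hw => ?_⟩
  have hyE : (y : E) ≠ 0 := fun h => hy0 (Subtype.ext h)
  rw [LinearMap.mem_ker] at hyk
  have h1 := congrFun hyk ⟨w, hw⟩
  have h2 : Ideal.Quotient.mk (Ideal.span {(⟨c w, hcA ⟨w, hw⟩⟩ : w.A)})
      (⟨s w * y, hmem ⟨w, hw⟩ y y.2⟩ : w.A) = 0 := h1
  rw [Ideal.Quotient.eq_zero_iff_mem, Ideal.mem_span_singleton] at h2
  obtain ⟨d, hd⟩ := h2
  have h3 : s w * (y : E) = c w * d := congrArg Subtype.val hd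
  have hd0 : (d : E) ≠ 0 := by
    intro h
    rw [h, mul_zero] at h3
    exact mul_ne_zero (hs0 w) hyE h3
  have h4 := congrArg (o w) h3
  rw [(ho w).mul _ _ (hs0 w) hyE, (ho w).mul _ _ (hc0 w) hd0, hs, hc] at h4
  have h5 := ((ho w).nonneg _ hd0).2 d.2
  linarith

/-- A nonzero element of the maximal ideal of a place is transcendental. -/
theorem Place.transc (w : Place K E) {z : E} (hz : z ∈ w.A.nonunits) (h0 : z ≠ 0) :
    Transcendental K z := by
  intro halg
  rw [w.A.mem_nonunits_iff_or] at hz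
  rcases hz with h | h
  · exact h0 h
  apply h
  by_cases hzA : z ∈ w.A
  · let B : Subalgebra K E :=
      { w.A.toSubring with
        algebraMap_mem' := w.mem }
    exact Subalgebra.inv_mem_of_algebraic (A := B) (x := ⟨z, hzA⟩) halg
  · exact (w.A.mem_or_inv_mem z).resolve_left hzA

/-- Every transcendental element has a pole. -/
theorem exists_placeK {y : E} (htr : Transcendental K y) :
    ∃ w : Place K E, y⁻¹ ∈ w.A.nonunits := by
  have hy0 : y ≠ 0 := by
    rintro rfl
    exact htr isAlgebraic_zero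
  have htr' : Transcendental K y⁻¹ := by
    intro h
    apply htr
    have := h.inv
    rwa [inv_inv] at this
  let A : Subring E := (Algebra.adjoin K {y⁻¹}).toSubring
  let w : A := ⟨y⁻¹, Algebra.subset_adjoin rfl⟩
  have hI : Ideal.span {w} ≠ ⊤ := by
    intro h
    have h1 : (1 : A) ∈ Ideal.span {w} := by rw [h]; trivial
    rw [Ideal.mem_span_singleton] at h1
    obtain ⟨⟨b, hb⟩, hb1⟩ := h1
    have h2 : (1 : E) = y⁻¹ * b := congrArg Subtype.val hb1
    have h3 : b ∈ Algebra.adjoin K {y⁻¹} := hb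
    rw [Algebra.adjoin_singleton_eq_range_aeval] at h3
    obtain ⟨p, rfl⟩ := h3
    apply htr'
    refine ⟨1 - X * p, ?_, ?_⟩
    · intro h4
      have h5 := congrArg (fun q => q.coeff 0) h4
      simp at h5
    · rw [map_sub, map_one, map_mul, aeval_X]
      exact sub_eq_zero.2 h2
  obtain ⟨B, hAB, hB⟩ := Ideal.image_subset_nonunits_valuationSubring (Ideal.span {w}) hI
  have hyB : y⁻¹ ∈ B.nonunits :=
    hB ⟨w, Ideal.subset_span rfl, rfl⟩
  refine ⟨⟨B, ?_, fun a => hAB (Subalgebra.algebraMap_mem _ a)⟩, hyB⟩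
  intro hT
  rw [B.mem_nonunits_iff_or] at hyB
  rcases hyB with h | h
  · exact inv_ne_zero hy0 h
  · apply h
    rw [hT]
    trivial

/-- Poles: the lower bound. -/
theorem le_polesK (o : Place K E → E → ℤ) (ho : ∀ w, IsOrd w.A (o w))
    (hdvr : ∀ w : Place K E, IsDiscreteValuationRing w.A)
    (hres : ∀ w : Place K E, Module.Finite K w.res)
    (hfa : ∀ z : E, z ≠ 0 → {w : Place K E | o w z ≠ 0}.Finite)
    {z : E} (htr : Transcendental K z) (T : Finset (Place K E))
    (hsup : ∀ w, o w z ≠ 0 → w ∈ T) {n : ℕ} (hI : Ind K z n) :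
    n ≤ ∑ w ∈ T, (-(o w z)).toNat * w.deg := by
  classical
  have hz0 : z ≠ 0 := by
    rintro rfl
    exact htr isAlgebraic_zero
  obtain ⟨w0, -⟩ := exists_placeK htr
  obtain ⟨S, C, hC, hW⟩ := latticeK o ho hfa hz0 hI
  set T2 : Finset (Place K E) := insert w0 (T ∪ S) with hT2
  let b : Place K E → ℤ := fun w => if w = w0 then 1 else 0
  have hb0 : ∀ w, 0 ≤ b w := fun w => by
    simp only [b]
    split_ifs <;> norm_num
  have hkey : ∀ r : ℕ, n * (r + 1) ≤
      ∑ w ∈ T2, (((C w : ℤ) + r * max (-(o w z)) 0) + b w).toNat * w.deg := by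
    intro r
    by_contra hlt
    push Not at hlt
    obtain ⟨W, hWf, hWc, hWo⟩ := hW r
    rw [← hWc] at hlt
    obtain ⟨y, hyW, hy0, hy⟩ := countK o ho hdvr hres T2 W
      (fun w => (C w : ℤ) + r * max (-(o w z)) 0) b
      (fun w _ => by
        have := hb0 w
        positivity)
      (fun y hyW hy0 w _ => by
        have := hWo y hyW hy0 w
        linarith) hlt
    have hall : ∀ w, 0 ≤ o w y := by
      intro w
      by_cases hwT : w ∈ T2
      · exact le_trans (hb0 w) (hy w hwT)
      · rw [hT2, Finset.mem_insert, Finset.mem_union] at hwT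
        push Not at hwT
        have h1 := hWo y hyW hy0 w
        have h2 : o w z = 0 := by
          by_contra h
          exact hwT.2.1 (hsup w h)
        rw [hC w hwT.2.2, h2] at h1
        simpa using h1
    have hw0y : 1 ≤ o w0 y := by
      have := hy w0 (Finset.mem_insert_self _ _)
      simpa [b] using this
    have hytr : Transcendental K y :=
      w0.transc (((ho w0).pos_iff hy0).1 (by omega)) hy0
    obtain ⟨v, hv⟩ := exists_placeK hytr
    have h3 := ((ho v).pos_iff (inv_ne_zero hy0)).2 hv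
    rw [(ho v).inv hy0] at h3
    have := hall v
    omega
  -- the sum over T2 splits
  have hsplit : ∀ r : ℕ, ∑ w ∈ T2, (((C w : ℤ) + r * max (-(o w z)) 0) + b w).toNat * w.deg
      = (∑ w ∈ T2, (C w + (b w).toNat) * w.deg) + r * ∑ w ∈ T2, (-(o w z)).toNat * w.deg := by
    intro r
    rw [Finset.mul_sum, ← Finset.sum_add_distrib]
    refine Finset.sum_congr rfl fun w _ => ?_
    have h1 := hb0 w
    have h2 : max (-(o w z)) 0 = ((-(o w z)).toNat : ℤ) := (Int.ofNat_toNat _).symm
    rw [h2]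
    have h3 : ((b w).toNat : ℤ) = b w := Int.toNat_of_nonneg h1
    have h4 : ((C w : ℤ) + r * ((-(o w z)).toNat : ℤ)) + b w
        = ((C w + (b w).toNat + r * (-(o w z)).toNat : ℕ) : ℤ) := by
      push_cast
      rw [h3]
      ring
    rw [h4, Int.toNat_natCast]
    ring
  have hTT2 : ∑ w ∈ T2, (-(o w z)).toNat * w.deg = ∑ w ∈ T, (-(o w z)).toNat * w.deg := by
    symm
    apply Finset.sum_subset
    · intro w hw
      rw [hT2, Finset.mem_insert, Finset.mem_union]
      exact Or.inr (Or.inl hw)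
    · intro w _ hwT
      have h2 : o w z = 0 := by
        by_contra h
        exact hwT (hsup w h)
      rw [h2]
      simp
  rw [← hTT2]
  by_contra hlt
  push Not at hlt
  set M := ∑ w ∈ T2, (-(o w z)).toNat * w.deg with hM
  set c := ∑ w ∈ T2, (C w + (b w).toNat) * w.deg with hc
  have h1 := hkey c
  rw [hsplit c] at h1
  have h2 : (M + 1) * (c + 1) ≤ n * (c + 1) := Nat.mul_le_mul_right _ hlt
  nlinarith

/-- Zeros: the upper bound, without restriction on the places. -/
theorem zeros_leK (o : Place K E → E → ℤ) (ho : ∀ w, IsOrd w.A (o w))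
    (hdvr : ∀ w : Place K E, IsDiscreteValuationRing w.A)
    {z : E} (hz0 : z ≠ 0) (htr : Transcendental K z) (T : Finset (Place K E))
    {n : ℕ} (hR : Rel K z n) : ∑ w ∈ T, (o w z).toNat * w.deg ≤ n := by
  classical
  have h1 := sum_ord_mul_deg_le (T.filter (fun w => z ∈ w.A)) (fun w _ => hdvr w) o
    (fun w _ => ho w) hz0 htr (fun w hw => (Finset.mem_filter.1 hw).2) hR
  rw [Finset.sum_filter] at h1
  refine le_trans (le_of_eq ?_) h1
  refine Finset.sum_congr rfl fun w _ => ?_
  by_cases hzA : z ∈ w.A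
  · rw [if_pos hzA]
  · rw [if_neg hzA]
    have : ¬ 0 ≤ o w z := fun h => hzA (((ho w).nonneg z hz0).1 h)
    rw [Int.toNat_of_nonpos (by omega), zero_mul]

/-- **The degree of the divisor of a function is zero.** -/
theorem sum_ord_deg_of (hE : IsCurveField K E) (o : Place K E → E → ℤ)
    (ho : ∀ w, IsOrd w.A (o w))
    (hdvr : ∀ w : Place K E, IsDiscreteValuationRing w.A)
    (hres : ∀ w : Place K E, Module.Finite K w.res)
    (hfa : ∀ z : E, z ≠ 0 → {w : Place K E | o w z ≠ 0}.Finite)
    {z : E} (hz : z ≠ 0) (T : Finset (Place K E)) (hsup : ∀ w, o w z ≠ 0 → w ∈ T) :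
    ∑ w ∈ T, o w z * (w.deg : ℤ) = 0 := by
  classical
  by_cases htr : Transcendental K z
  · have htr' : Transcendental K z⁻¹ := by
      intro h
      have := h.inv
      rw [inv_inv] at this
      exact htr this
    obtain ⟨n, hR, hI⟩ := hE.hfin z htr
    obtain ⟨n', hR', hI'⟩ := hE.hfin z⁻¹ htr'
    have ho' : ∀ w, o w z⁻¹ = -(o w z) := fun w => (ho w).inv hz
    have h1 := zeros_leK o ho hdvr hz htr T hR
    have h2 := le_polesK o ho hdvr hres hfa htr T hsup hI
    have h3 := zeros_leK o ho hdvr (inv_ne_zero hz) htr' T hR'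
    have h4 := le_polesK o ho hdvr hres hfa htr' T (fun w h => hsup w (by
      rw [ho'] at h
      omega)) hI'
    simp only [ho', neg_neg] at h3 h4
    have h5 : ∑ w ∈ T, (o w z).toNat * w.deg = ∑ w ∈ T, (-(o w z)).toNat * w.deg := by
      apply le_antisymm
      · exact h1.trans h2
      · exact h3.trans h4
    have h6 : ∑ w ∈ T, o w z * (w.deg : ℤ) = ((∑ w ∈ T, (o w z).toNat * w.deg : ℕ) : ℤ)
        - ((∑ w ∈ T, (-(o w z)).toNat * w.deg : ℕ) : ℤ) := by
      push_cast
      rw [← Finset.sum_sub_distrib]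
      refine Finset.sum_congr rfl fun w _ => ?_
      rw [← sub_mul]
      congr 1
      omega
    rw [h6, h5, sub_self]
  · apply Finset.sum_eq_zero
    intro w _
    have h0 : o w z = 0 := by
      by_contra h
      apply htr
      rcases lt_or_gt_of_ne h with h | h
      · have h1 : z⁻¹ ∈ w.A.nonunits := by
          rw [← (ho w).pos_iff (inv_ne_zero hz), (ho w).inv hz]
          omega
        have h2 := w.transc h1 (inv_ne_zero hz)
        intro h3
        exact h2 h3.inv
      · exact w.transc (((ho w).pos_iff hz).1 h) hz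
    rw [h0, zero_mul]

theorem Place.ord_eq_o (w : Place K E) {o : E → ℤ} (h : IsOrd w.A o)
    (hdvr : IsDiscreteValuationRing w.A) {g : E} (hg : g ≠ 0) : w.ord g = o g := by
  classical
  obtain ⟨p, hp⟩ := IsDiscreteValuationRing.exists_irreducible w.A
  have hex : ∃ m : ℤ, ∃ π : w.A, Irreducible π ∧ w.A.valuation g = w.A.valuation (π : E) ^ m :=
    ⟨o g, p, hp, val_of_ord h hg hp⟩
  have h1 : w.ord g = hex.choose := by
    unfold Place.ord
    rw [dif_pos hex]
  obtain ⟨π, hπ, hm⟩ := hex.choose_spec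
  rw [h1]
  exact (ord_eq_of_val h hg hπ hm).symm

/-- The normalised valuation of a discrete place is an order function. -/
theorem Place.isOrd_ord (w : Place K E) (hdvr : IsDiscreteValuationRing w.A) :
    IsOrd w.A w.ord := by
  obtain ⟨o, ho⟩ := exists_isOrd w.A
  refine ⟨fun x y hx hy => ?_, fun x hx => ?_, ?_⟩
  · rw [w.ord_eq_o ho hdvr hx, w.ord_eq_o ho hdvr hy, w.ord_eq_o ho hdvr (mul_ne_zero hx hy),
      ho.mul x y hx hy]
  · rw [w.ord_eq_o ho hdvr hx]
    exact ho.nonneg x hx
  · obtain ⟨x, hx, hx1⟩ := ho.surj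
    exact ⟨x, hx, by rw [w.ord_eq_o ho hdvr hx, hx1]⟩

/-- **The degree of the divisor of a function is zero**, with the normalised valuations. -/
theorem finsum_ord_deg_of (hE : IsCurveField K E)
    (hdvr : ∀ w : Place K E, IsDiscreteValuationRing w.A)
    (hres : ∀ w : Place K E, Module.Finite K w.res)
    (hfa : ∀ z : E, z ≠ 0 → {w : Place K E | w.ord z ≠ 0}.Finite) {z : E} (hz : z ≠ 0) :
    ∑ᶠ w : Place K E, w.ord z * (w.deg : ℤ) = 0 := by
  classical
  have hs : (Function.support fun w : Place K E => w.ord z * (w.deg : ℤ)) ⊆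
      ((hfa z hz).toFinset : Set (Place K E)) := by
    intro w hw
    rw [Set.Finite.coe_toFinset]
    intro h
    apply hw
    change w.ord z * (w.deg : ℤ) = 0
    rw [h, zero_mul]
  rw [finsum_eq_sum_of_support_subset _ hs]
  exact sum_ord_deg_of hE (fun w => w.ord) (fun w => w.isOrd_ord (hdvr w)) hdvr hres hfa hz _
    (fun w hw => (hfa z hz).mem_toFinset.2 hw)

end ZC
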