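import Pool.Agent.Helper25.PC.Count

/-! Rows FP and FE of PIC: finitely many places, finitely many effective divisors. -/

set_option autoImplicit false

namespace PCl

open Polynomial

variable {F k : Type*} [Field F] [Finite F] [Field k] [Algebra F k]

/-- Row FP (helper33): finitely many places of bounded norm. -/
theorem finite_places (hfin : ∀ x : k, Transcendental F x → ∃ n, Rel F x n)
    {t : k} (ht : Transcendental F t) (B : ℕ) :
    {A : ValuationSubring k | A ≠ ⊤ ∧ N A ≤ B}.Finite := by
  classical
  have ht0 : t ≠ 0 := by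
    rintro rfl
    exact ht isAlgebraic_zero
  have h1 : {A : ValuationSubring k | t⁻¹ ∈ A.nonunits}.Finite :=
    finite_above (F := F) hfin t⁻¹ (inv_ne_zero ht0)
  have h2 : ∀ m ∈ Finset.Icc 2 B, {A : ValuationSubring k | t ^ m - t ∈ A.nonunits}.Finite := by
    intro m hm
    rw [Finset.mem_Icc] at hm
    refine finite_above (F := F) hfin _ fun h => ?_
    have hp : (X ^ m - X : F[X]) ≠ 0 := by
      intro h'
      have := congrArg (fun p : F[X] => p.coeff m) h'
      simp only [coeff_sub, coeff_X_pow, if_true, coeff_zero, coeff_X] at this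
      rw [if_neg (by omega)] at this
      simp at this
    refine aeval_ne ht hp ?_
    simpa using h
  refine (h1.union ((Finset.Icc 2 B).finite_toSet.biUnion (fun m hm => h2 m hm))).subset ?_
  rintro A ⟨hA, hN⟩
  have hres := (isDVR (F := F) hfin A hA).2
  have h3 := two_le_N (F := F) hfin A hA
  by_cases htA : t ∈ A
  · right
    rw [Set.mem_iUnion₂]
    refine ⟨N A, by simp [h3, hN], ?_⟩
    have := Fintype.ofFinite (IsLocalRing.ResidueField A)
    have h4 : (IsLocalRing.residue A ⟨t, htA⟩) ^ N A = IsLocalRing.residue A ⟨t, htA⟩ := by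
      rw [N, Nat.card_eq_fintype_card]
      exact FiniteField.pow_card _
    rw [← map_pow, ← sub_eq_zero, ← map_sub, IsLocalRing.residue_eq_zero_iff] at h4
    rw [Set.mem_ofPred_eq, A.mem_nonunits_iff]
    exact (A.valuation_lt_one_iff _).1 h4
  · left
    rw [Set.mem_ofPred_eq, A.mem_nonunits_iff_or]
    right
    rwa [inv_inv]

/-- Row FE (helper33): finitely many effective divisors of bounded norm. -/
theorem finite_eff (hfin : ∀ x : k, Transcendental F x → ∃ n, Rel F x n)
    {t : k} (ht : Transcendental F t) (B : ℕ) :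
    {E : ValuationSubring k →₀ ℕ | (∀ A ∈ E.support, A ≠ ⊤) ∧
      (E.prod fun A e => N A ^ e) ≤ B}.Finite := by
  classical
  have hP := finite_places hfin ht B
  refine (Finset.finite_toSet (hP.toFinset.finsupp fun _ => Finset.range (B + 1))).subset ?_
  rintro E ⟨hE, hEB⟩
  have h1 : ∀ A ∈ E.support, N A ^ E A ≤ B := by
    intro A hA
    refine le_trans ?_ hEB
    rw [Finsupp.prod, ← Finset.mul_prod_erase _ _ hA]
    refine Nat.le_mul_of_pos_right _ (Finset.prod_pos fun A' hA' => ?_)
    have := two_le_N (F := F) hfin A' (hE A' (Finset.mem_of_mem_erase hA'))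
    positivity
  rw [Finset.mem_coe, Finset.mem_finsupp_iff]
  constructor
  · intro A hA
    rw [Set.Finite.mem_toFinset]
    refine ⟨hE A hA, le_trans ?_ (h1 A hA)⟩
    exact Nat.le_self_pow (Finsupp.mem_support_iff.1 hA) _
  · intro A _
    rw [Finset.mem_range, Nat.lt_succ_iff]
    by_cases hA : A ∈ E.support
    · have h2 := two_le_N (F := F) hfin A (hE A hA)
      calc E A ≤ 2 ^ E A := Nat.lt_two_pow_self.le
        _ ≤ N A ^ E A := Nat.pow_le_pow_left h2 _
        _ ≤ B := h1 A hA
    · rw [Finsupp.notMem_support_iff.1 hA]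
      exact Nat.zero_le _

end PCl
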