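import Pool.Agent.Helper25.PC.Pic

/-! Dimensions of the quotients of a discrete valuation ring with a finite residue field
extension. -/

set_option autoImplicit false

namespace PCl

section dvr
variable {K A : Type*} [Field K] [CommRing A] [IsDomain A] [IsDiscreteValuationRing A]
  [Algebra K A] [Module.Finite K (IsLocalRing.ResidueField A)]

theorem finrank_quot_pow {p : A} (hp : Irreducible p) (n : ℕ) :
    Module.Finite K (A ⧸ Ideal.span {p ^ n}) ∧
      Module.finrank K (A ⧸ Ideal.span {p ^ n}) =
        n * Module.finrank K (IsLocalRing.ResidueField A) := by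
  classical
  have hp0 : p ≠ 0 := hp.ne_zero
  induction n with
  | zero =>
    have h1 : Ideal.span {p ^ 0} = (⊤ : Ideal A) := by simp
    have : Subsingleton (A ⧸ Ideal.span {p ^ 0}) := by
      rw [h1]
      exact Ideal.Quotient.subsingleton_iff.2 rfl
    exact ⟨inferInstance, by rw [Module.finrank_zero_of_subsingleton, zero_mul]⟩
  | succ n ih =>
    obtain ⟨ihf, ihr⟩ := ih
    have hle : Ideal.span {p ^ (n + 1)} ≤ Ideal.span {p ^ n} :=
      Ideal.span_singleton_le_span_singleton.2 (pow_dvd_pow p (Nat.le_succ n))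
    -- the projection
    let f : (A ⧸ Ideal.span {p ^ (n + 1)}) →ₗ[K] (A ⧸ Ideal.span {p ^ n}) :=
      (Ideal.Quotient.factorₐ K hle).toLinearMap
    have hfs : Function.Surjective f := Ideal.Quotient.factor_surjective hle
    -- the multiplication by `p ^ n`
    let m : A →ₗ[K] (A ⧸ Ideal.span {p ^ (n + 1)}) :=
      (Ideal.Quotient.mkₐ K (Ideal.span {p ^ (n + 1)})).toLinearMap ∘ₗ LinearMap.mulLeft K (p ^ n)
    have hmk : LinearMap.ker m = (Ideal.span {p}).restrictScalars K := by
      ext a
      rw [LinearMap.mem_ker, Submodule.restrictScalars_mem, Ideal.mem_span_singleton]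
      change Ideal.Quotient.mk _ (p ^ n * a) = 0 ↔ _
      rw [Ideal.Quotient.eq_zero_iff_mem, Ideal.mem_span_singleton, pow_succ]
      exact mul_dvd_mul_iff_left (pow_ne_zero n hp0)
    have hmr : LinearMap.range m = LinearMap.ker f := by
      ext x
      obtain ⟨a, rfl⟩ := Ideal.Quotient.mk_surjective x
      rw [LinearMap.mem_ker]
      have h1 : f (Ideal.Quotient.mk _ a) = Ideal.Quotient.mk _ a := rfl
      rw [h1, Ideal.Quotient.eq_zero_iff_mem, Ideal.mem_span_singleton]
      constructor
      · rintro ⟨b, hb⟩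
        have h2 : Ideal.Quotient.mk (Ideal.span {p ^ (n + 1)}) (p ^ n * b) =
            Ideal.Quotient.mk _ a := hb
        rw [Ideal.Quotient.mk_eq_mk_iff_sub_mem, Ideal.mem_span_singleton] at h2
        have h3 : p ^ n ∣ p ^ n * b - a := (pow_dvd_pow p (Nat.le_succ n)).trans h2
        have h4 : a = p ^ n * b - (p ^ n * b - a) := by ring
        rw [h4]
        exact dvd_sub (dvd_mul_right _ _) h3
      · rintro ⟨b, rfl⟩
        exact ⟨b, rfl⟩
    -- the residue field
    have hres : (Ideal.span {p} : Ideal A) = IsLocalRing.maximalIdeal A := hp.maximalIdeal_eq.symm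
    have e1 : (A ⧸ LinearMap.ker m) ≃ₗ[K] LinearMap.range m := m.quotKerEquivRange
    have e2 : (A ⧸ (IsLocalRing.maximalIdeal A).restrictScalars K) ≃ₗ[K]
        IsLocalRing.ResidueField A :=
      Submodule.Quotient.restrictScalarsEquiv K (IsLocalRing.maximalIdeal A)
    have hmk' : LinearMap.ker m = (IsLocalRing.maximalIdeal A).restrictScalars K := by
      rw [hmk, hres]
    have e4 : (A ⧸ LinearMap.ker m) ≃ₗ[K]
        (A ⧸ (IsLocalRing.maximalIdeal A).restrictScalars K) := Submodule.quotEquivOfEq _ _ hmk'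
    have e5 : LinearMap.range m ≃ₗ[K] LinearMap.ker f := LinearEquiv.ofEq _ _ hmr
    have e3 : IsLocalRing.ResidueField A ≃ₗ[K] LinearMap.ker f :=
      ((e2.symm.trans e4.symm).trans e1).trans e5
    have hk : Module.Finite K (LinearMap.ker f) := Module.Finite.equiv e3
    have hkr : Module.finrank K (LinearMap.ker f) = Module.finrank K (IsLocalRing.ResidueField A) :=
      e3.finrank_eq.symm
    have hF : Module.Finite K (A ⧸ Ideal.span {p ^ (n + 1)}) := by
      rw [Module.finite_def]
      refine Submodule.fg_of_fg_map_of_fg_inf_ker f ?_ ?_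
      · rw [Submodule.map_top, LinearMap.range_eq_top.2 hfs]
        exact ihf.1
      · rw [top_inf_eq]
        exact (Submodule.fg_top _).1 hk.1
    refine ⟨hF, ?_⟩
    have h5 := f.finrank_range_add_finrank_ker
    rw [LinearMap.range_eq_top.2 hfs, finrank_top, ihr, hkr] at h5
    rw [← h5]
    ring

end dvr

end PCl

namespace ZC

universe u

open PCl

variable {K E : Type u} [Field K] [Field E] [Algebra K E]

/-- The dimension of `A / zA` is the order of `z` times the degree of the place. -/
theorem Place.finrank_quot (w : Place K E) [IsDiscreteValuationRing w.A] [Module.Finite K w.res]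
    {o : E → ℤ} (h : IsOrd w.A o) (z : w.A) (hz : z ≠ 0) :
    Module.Finite K (w.A ⧸ Ideal.span {z}) ∧
      Module.finrank K (w.A ⧸ Ideal.span {z}) = (o (z : E)).toNat * w.deg := by
  obtain ⟨p, hp⟩ := IsDiscreteValuationRing.exists_irreducible w.A
  have hp0 : (p : E) ≠ 0 := fun h => hp.ne_zero (Subtype.ext h)
  have hz0 : (z : E) ≠ 0 := fun h => hz (Subtype.ext h)
  obtain ⟨n, hn⟩ := IsDiscreteValuationRing.associated_pow_irreducible hz hp
  have h1 : Ideal.span {z} = Ideal.span {p ^ n} := Ideal.span_singleton_eq_span_singleton.2 hn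
  have h2 : o (z : E) = n := by
    obtain ⟨u, hu⟩ := hn
    have h3 : (z : E) * ((u : w.A) : E) = (p : E) ^ n := congrArg Subtype.val hu
    have hu0 : ((u : w.A) : E) ≠ 0 := fun h => u.ne_zero (Subtype.ext h)
    have h4 : o ((u : w.A) : E) = 0 := by
      have h5 : ((u : w.A) : E) * ((↑(u⁻¹) : w.A) : E) = 1 := congrArg Subtype.val (u.mul_inv)
      have h7 : ((u : w.A) : E)⁻¹ = ((↑(u⁻¹) : w.A) : E) := (eq_inv_of_mul_eq_one_right h5).symm
      have h8 : ((u : w.A) : E)⁻¹ ∈ w.A := by rw [h7]; exact SetLike.coe_mem _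
      rw [← h.nonneg _ (inv_ne_zero hu0), h.inv hu0] at h8
      have h9 := (h.nonneg _ hu0).2 (SetLike.coe_mem (u : w.A))
      omega
    have h5 := h.mul _ _ hz0 hu0
    rw [h3, h.pow hp0, h.irreducible hp, h4] at h5
    omega
  rw [h2, Int.toNat_natCast, h1]
  exact finrank_quot_pow hp n

end ZC
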